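import Pool.Agent.H30.VM.TargetsF
import Pool.Agent.H27.LV.Gen
import Pool.Agent.H92.VG.VD

/-!
# MP_70ba79_ag: row VDP: degrees, regularity and constants in terms of `x`
-/

set_option autoImplicit false

namespace Pool.Agent.H95.VMP

open MvPolynomial SC Pool.Agent.H27.LV Pool.Agent.H17.VG Pool.Agent.H30.VM
open Pool.Agent.H17.CI (Tup IlT PQT TxT frmT upT RatT)

theorem pf_VDP (hVD : Pool.Agent.H17.VG.T_VD) : T_VDP := by
  intro k K _ _ _ _ _ _ htr n ι _ _ i₀ e Z c z x hi₀ hpt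
  obtain ⟨⟨p, hp⟩, hev, hz⟩ := hpt
  have hd : 1 ≤ dgB e Z := by
    have h1 : e i₀ + 1 ≤ dgB e Z := by
      unfold dgB
      exact Finset.single_le_sum (f := fun i => e i + 1) (fun _ _ => Nat.zero_le _)
        (Finset.mem_sdiff.2 ⟨Finset.mem_univ i₀, hi₀⟩)
    omega
  have hhom : ∀ i, (frmT c i).IsHomogeneous (e i + 1) := fun i => frm_homog _
  have hG : (bnd Z c).IsHomogeneous (dgB e Z) := by
    unfold bnd dgB
    exact IsHomogeneous.prod _ _ _ fun i _ => hhom i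
  have hfrm : frm (fun M : Mon (n + 1) (dgB e Z) => coeff (fs M.1) (bnd Z c)) = bnd Z c :=
    (dec hG).symm
  have hprod : eval x (up K (bnd Z c)) = ∏ i ∈ Finset.univ \ Z, eval x (upT K (frmT c) i) := by
    unfold bnd up upT
    rw [map_prod, map_prod]
    rfl
  have hne : ∀ i ∈ Finset.univ \ Z, eval x (upT K (frmT c) i) ≠ 0 := fun i hi h =>
    (Finset.mem_sdiff.1 hi).2 ((hev i).1 h)
  have hne' : eval x (up K (bnd Z c)) ≠ 0 := by
    rw [hprod]
    exact Finset.prod_ne_zero_iff.2 hne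
  obtain ⟨h1, h2, h3⟩ := hVD k K htr n (dgB e Z)
    (fun M : Mon (n + 1) (dgB e Z) => coeff (fs M.1) (bnd Z c)) z x p hd hp
    (by rw [hfrm]; exact hne') (fun M => by rw [hfrm]; exact hz M)
  refine ⟨fun v hv i hi => ?_, h2, h3⟩
  have h4 := h1 v hv
  rw [hfrm, hprod, v.ord_prod _ _ hne] at h4
  have h5 : ∀ j ∈ Finset.univ \ Z, -((e j + 1 : ℕ) * (poleOrder v x : ℤ)) ≤
      v.ord (eval x (upT K (frmT c) j)) := by
    intro j hj
    rcases Pool.Agent.H92.VG.ge_form htr (hhom j) x v with h6 | h6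
    · exact absurd h6 (hne j hj)
    · exact_mod_cast h6
  have h6 : ∑ j ∈ Finset.univ \ Z, -((e j + 1 : ℕ) * (poleOrder v x : ℤ)) =
      ∑ j ∈ Finset.univ \ Z, v.ord (eval x (upT K (frmT c) j)) := by
    rw [h4, Finset.sum_neg_distrib, ← Finset.sum_mul]
    unfold dgB
    push_cast
    rfl
  have h7 := (Finset.sum_eq_sum_iff_of_le h5).1 h6 i
    (Finset.mem_sdiff.2 ⟨Finset.mem_univ i, hi⟩)
  rw [← h7]

end Pool.Agent.H95.VMP
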